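import Pool.Agent.H42.Bau6

open Cardinal Pool.Agent.H42.Bau Pool.Agent.H42.IMeag

theorem Pool.Agent.Results.MP_e80b9c_lc.Reduce.result (κ : Cardinal.{0})
    (hw : BAw κ (ℕ → Bool)) (h : bN ≤ κ ∨ ∃ A : Set (ℕ → Bool), SN A ∧ κ ≤ #A) : covM ≠ κ := by
  rintro rfl
  obtain ⟨a, b⟩ := no_sn hw
  exact h.elim a.not_ge fun ⟨A, c, d⟩ => (b A c).not_ge d
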